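import Pool.Agent.BEL.StmtsC

/-!
# Multiplication operators on `L²`
-/

set_option autoImplicit false

namespace Pool.Agent.BEL.H92

open MeasureTheory Filter Topology Set
open scoped InnerProductSpace ENNReal

theorem mlp : MlpStmt := by
  intro X _ μ _ f M hf hM
  have hmem : ∀ v : Lp ℝ 2 μ, MemLp (fun x => f x * v x) 2 μ := by
    intro v
    refine (Lp.memLp v).of_le_mul (c := M)
      (hf.aestronglyMeasurable.mul (Lp.aestronglyMeasurable v)) (Eventually.of_forall fun x => ?_)
    rw [norm_mul, Real.norm_eq_abs (f x)]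
    exact mul_le_mul_of_nonneg_right (hM x) (norm_nonneg _)
  have hcoe : ∀ v : Lp ℝ 2 μ, ml μ f v =ᵐ[μ] fun x => f x * v x := by
    intro v
    have h : ml μ f v = (hmem v).toLp _ := by
      unfold ml
      rw [dif_pos (hmem v)]
    rw [h]
    exact (hmem v).coeFn_toLp
  have hnorm : ∀ v : Lp ℝ 2 μ, ‖ml μ f v‖ ≤ M * ‖v‖ := by
    intro v
    refine Lp.norm_le_mul_norm_of_ae_le_mul ?_
    filter_upwards [hcoe v] with x hx
    rw [hx, norm_mul, Real.norm_eq_abs (f x)]
    exact mul_le_mul_of_nonneg_right (hM x) (norm_nonneg _)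
  have hadd : ∀ v w : Lp ℝ 2 μ, ml μ f (v + w) = ml μ f v + ml μ f w := by
    intro v w
    refine Lp.ext ?_
    filter_upwards [hcoe (v + w), hcoe v, hcoe w, Lp.coeFn_add v w,
      Lp.coeFn_add (ml μ f v) (ml μ f w)] with x h1 h2 h3 h4 h5
    rw [h1, h5, Pi.add_apply, h2, h3, h4, Pi.add_apply]
    ring
  have hsmul : ∀ (c : ℝ) (v : Lp ℝ 2 μ), ml μ f (c • v) = c • ml μ f v := by
    intro c v
    refine Lp.ext ?_
    filter_upwards [hcoe (c • v), hcoe v, Lp.coeFn_smul c v, Lp.coeFn_smul c (ml μ f v)]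
      with x h1 h2 h3 h4
    rw [h1, h4, Pi.smul_apply, h2, h3, Pi.smul_apply, smul_eq_mul, smul_eq_mul]
    ring
  refine ⟨hcoe, hnorm, hadd, hsmul, ?_, ?_⟩
  · intro v w
    rw [L2.inner_def]
    refine integral_congr_ae ?_
    filter_upwards [hcoe v] with x h1
    rw [h1]
    simp [mul_comm]
  · refine ⟨LinearMap.mkContinuous
      { toFun := ml μ f
        map_add' := hadd
        map_smul' := fun c v => by
          rw [RingHom.id_apply]
          exact hsmul c v } M hnorm, fun v => rfl⟩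

end Pool.Agent.BEL.H92
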