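import Pool.Agent.BEL.StmtsD

/-!
# Space-time integral of the coefficient for the limit orbit
-/

set_option autoImplicit false

namespace Pool.Agent.BEL.H92

open MeasureTheory Filter Topology Set
open scoped InnerProductSpace ENNReal

theorem bls_ev (a al M : ℝ) (ha : 0 < a) (hal : 0 < al) :
    ∀ᶠ n : ℕ in atTop, M ≤ a * (al + 1) * (n : ℝ) ^ al := by
  have h1 : Tendsto (fun n : ℕ => (n : ℝ) ^ al) atTop atTop :=
    (tendsto_rpow_atTop hal).comp tendsto_natCast_atTop_atTop
  have h2 : Tendsto (fun n : ℕ => a * (al + 1) * (n : ℝ) ^ al) atTop atTop :=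
    Tendsto.const_mul_atTop (by positivity) h1
  exact h2.eventually_ge_atTop M

theorem bls (dsp : DspStmt) (cfl : CflStmt) (spr : SprStmt) (grq : GrqStmt) (cgl : CglStmt)
    (ctj : CtjStmt) : BlsStmt := by
  intro a al mX ha hal hmX
  obtain ⟨C, hC, hD⟩ := dsp a al mX ha hal hmX
  refine ⟨C, hC, ?_⟩
  intro X _ μ _ κ b om W Z S hμ hW hL V M s t hM hs hst
  obtain ⟨-, -, -, hScont, -⟩ := spr X μ κ a al b om W Z S ha hal hW hL
  obtain ⟨-, -, hWn, -, -, hWc, -, -⟩ := grq _ κ b om W hW
  have hv : Continuous fun r => P2 (S (max r 0) V) := P2.continuous.comp (hScont V)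
  have hZc : ∀ n, Continuous (Z n V) := fun n =>
    continuous_iff_continuousAt.mpr fun r => ((hL.fl n V).eq r).continuousAt
  have hw : ∀ n, Continuous fun r => P2 (W r (Z n V r)) := fun n =>
    P2.continuous.comp (hWc _ (hZc n))
  obtain ⟨hcfc, hcf0, hcfM, -⟩ := (cgl a al 1 ha hal zero_le_one).2.2.2.2.2.2.2.2.2.2.2.2.2.2 M hM
  have hcfabs : ∀ x, |cf a al M x| ≤ M := by
    intro x
    rw [abs_of_nonneg (hcf0 x)]
    exact hcfM x
  have hcfi : ∀ u : Lp ℝ 2 μ, Integrable (fun x => cf a al M (u x)) μ := by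
    intro u
    refine Integrable.of_bound (hcfc.comp_aestronglyMeasurable (Lp.aestronglyMeasurable u)) M
      (Eventually.of_forall fun x => ?_)
    exact hcfabs _
  have hIv : Continuous fun r => ∫ x, cf a al M (P2 (S (max r 0) V) x) ∂μ :=
    ctj X μ (fun p _ => cf a al M p) M (hcfc.comp continuous_fst) (fun p _ => hcfabs p) _ _ hv hv
  have hIw : ∀ n, Continuous fun r => ∫ x, cf a al M (P2 (W r (Z n V r)) x) ∂μ := fun n =>
    ctj X μ (fun p _ => cf a al M p) M (hcfc.comp continuous_fst) (fun p _ => hcfabs p) _ _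
      (hw n) (hw n)
  have hq0 : 0 ≤ al / (al + 2) := by positivity
  -- the limit of the norms
  have hlim : Tendsto (fun n => C * (t - s) ^ (2 / (al + 2)) * (‖Z n V s‖ ^ 2) ^ (al / (al + 2)))
      atTop (𝓝 (C * (t - s) ^ (2 / (al + 2)) * (‖S s V‖ ^ 2) ^ (al / (al + 2)))) := by
    have h1 : Tendsto (fun n => W s (Z n V s)) atTop (𝓝 (S s V)) :=
      (hL.lim V s).tendsto_at ⟨hs, le_rfl⟩
    have h2 : Tendsto (fun n => ‖Z n V s‖) atTop (𝓝 ‖S s V‖) := by
      have h3 := h1.norm
      simp only [hWn] at h3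
      exact h3
    exact ((h2.pow 2).rpow_const (Or.inr hq0)).const_mul _
  refine le_of_forall_pos_le_add fun ε hε => ?_
  -- choose δ
  obtain ⟨δ, hδ, hδε⟩ : ∃ δ : ℝ, 0 < δ ∧ δ * ((mX + 1) * (t - s)) ≤ ε := by
    have h1 : 0 ≤ (mX + 1) * (t - s) := mul_nonneg (by linarith) (by linarith)
    refine ⟨ε / ((mX + 1) * (t - s) + 1), by positivity, ?_⟩
    rw [div_mul_eq_mul_div, div_le_iff₀ (by positivity)]
    nlinarith
  have hev := cfl X μ κ a al b om W Z S ha hal hW hL V M t (δ ^ 2) hM (by positivity)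
  have hmain : ∀ᶠ n : ℕ in atTop,
      ∫ r in s..t, ∫ x, cf a al M (P2 (S (max r 0) V) x) ∂μ ≤
        C * (t - s) ^ (2 / (al + 2)) * (‖Z n V s‖ ^ 2) ^ (al / (al + 2)) + ε := by
    filter_upwards [hev, bls_ev a al M ha hal, eventually_gt_atTop 0] with n h1 h2 h3
    have hn : (0 : ℝ) < (n : ℝ) := by exact_mod_cast h3
    obtain ⟨-, hqc, -, -, -, -, hmml, hq, -, -, -, -, -, -, hcf⟩ := cgl a al n ha hal hn.le
    obtain ⟨-, -, -, hmin⟩ := hcf M hM
    have hqb : ∀ p, |ql a al n p| ≤ a * (al + 1) * (n : ℝ) ^ al := by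
      intro p
      rw [abs_of_nonneg (hq p)]
      unfold ql
      exact mul_le_mul_of_nonneg_left (hmml p) (by positivity)
    have hIq : Continuous fun r => ∫ x, ql a al n (P2 (W r (Z n V r)) x) ∂μ :=
      ctj X μ (fun p _ => ql a al n p) _ (hqc.comp continuous_fst) (fun p _ => hqb p) _ _
        (hw n) (hw n)
    -- for every time
    have hpt : ∀ r ∈ Icc s t, ∫ x, cf a al M (P2 (S (max r 0) V) x) ∂μ ≤
        (∫ x, ql a al n (P2 (W r (Z n V r)) x) ∂μ) + δ * (mX + 1) := by
      intro r hr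
      have hr0 : 0 ≤ r := hs.trans hr.1
      have h4 := h1 r ⟨hr0, hr.2⟩
      rw [max_eq_left hr0]
      have hqi : Integrable (fun x => ql a al n (P2 (W r (Z n V r)) x)) μ :=
        Integrable.of_bound (hqc.comp_aestronglyMeasurable (Lp.aestronglyMeasurable _))
          (a * (al + 1) * (n : ℝ) ^ al) (Eventually.of_forall fun x => hqb _)
      have hdi : Integrable (fun x => (min (ql a al n (P2 (W r (Z n V r)) x)) M -
          cf a al M (P2 (S r V) x)) ^ 2) μ := by
        refine Integrable.of_bound (((((hqc.min continuous_const).comp_aestronglyMeasurable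
          (Lp.aestronglyMeasurable _)).sub (hcfc.comp_aestronglyMeasurable
          (Lp.aestronglyMeasurable _))).pow 2)) ((2 * M) ^ 2) (Eventually.of_forall fun x => ?_)
        rw [Real.norm_eq_abs, abs_pow]
        refine pow_le_pow_left₀ (abs_nonneg _) ?_ 2
        rw [hmin _ h2]
        have e1 := hcf0 (P2 (W r (Z n V r)) x)
        have e2 := hcfM (P2 (W r (Z n V r)) x)
        have e3 := hcf0 (P2 (S r V) x)
        have e4 := hcfM (P2 (S r V) x)
        rw [abs_le]
        constructor <;> linarith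
      have h5 : ∫ x, cf a al M (P2 (S r V) x) ∂μ ≤
          ∫ x, (ql a al n (P2 (W r (Z n V r)) x) + (δ + δ⁻¹ *
            (min (ql a al n (P2 (W r (Z n V r)) x)) M - cf a al M (P2 (S r V) x)) ^ 2)) ∂μ := by
        refine integral_mono (hcfi _) (hqi.add ((integrable_const δ).add (hdi.const_mul _))) ?_
        intro x
        have e1 : min (ql a al n (P2 (W r (Z n V r)) x)) M ≤ ql a al n (P2 (W r (Z n V r)) x) :=
          min_le_left _ _
        set d := min (ql a al n (P2 (W r (Z n V r)) x)) M - cf a al M (P2 (S r V) x) with hd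
        have e2 : -d ≤ δ + δ⁻¹ * d ^ 2 := by
          have e3 : δ⁻¹ * δ = 1 := inv_mul_cancel₀ hδ.ne'
          have e4 : 0 ≤ δ⁻¹ * (d + δ) ^ 2 := by positivity
          have e5 : δ⁻¹ * (d + δ) ^ 2 = δ⁻¹ * d ^ 2 + 2 * d * (δ⁻¹ * δ) + (δ⁻¹ * δ) * δ := by ring
          rw [e5, e3] at e4
          have e6 : 0 ≤ δ⁻¹ * d ^ 2 := by positivity
          nlinarith
        show cf a al M (P2 (S r V) x) ≤ ql a al n (P2 (W r (Z n V r)) x) + (δ + δ⁻¹ * d ^ 2)
        have e7 : cf a al M (P2 (S r V) x) =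
            min (ql a al n (P2 (W r (Z n V r)) x)) M - d := by
          rw [hd]
          ring
        rw [e7]
        linarith
      have h6 : ∫ x, (ql a al n (P2 (W r (Z n V r)) x) + (δ + δ⁻¹ *
          (min (ql a al n (P2 (W r (Z n V r)) x)) M - cf a al M (P2 (S r V) x)) ^ 2)) ∂μ =
          (∫ x, ql a al n (P2 (W r (Z n V r)) x) ∂μ) + (δ * μ.real univ + δ⁻¹ *
            ∫ x, (min (ql a al n (P2 (W r (Z n V r)) x)) M -
              cf a al M (P2 (S r V) x)) ^ 2 ∂μ) := by
        have hsum : Integrable (fun x => δ + δ⁻¹ *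
            (min (ql a al n (P2 (W r (Z n V r)) x)) M - cf a al M (P2 (S r V) x)) ^ 2) μ :=
          (integrable_const δ).add (hdi.const_mul _)
        rw [integral_add hqi hsum, integral_add (integrable_const δ) (hdi.const_mul _),
          integral_const_mul, integral_const, smul_eq_mul, mul_comm δ]
      rw [h6] at h5
      refine h5.trans ?_
      have h7 : δ⁻¹ * ∫ x, (min (ql a al n (P2 (W r (Z n V r)) x)) M -
          cf a al M (P2 (S r V) x)) ^ 2 ∂μ ≤ δ := by
        have h8 : δ⁻¹ * δ ^ 2 = δ := by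
          field_simp
        calc _ ≤ δ⁻¹ * δ ^ 2 := mul_le_mul_of_nonneg_left h4 (by positivity)
          _ = δ := h8
      have h9 : δ * μ.real univ ≤ δ * mX := mul_le_mul_of_nonneg_left hμ hδ.le
      have h10 : δ * (mX + 1) = δ * mX + δ := by ring
      linarith
    have h11 : ∫ r in s..t, ∫ x, cf a al M (P2 (S (max r 0) V) x) ∂μ ≤
        ∫ r in s..t, ((∫ x, ql a al n (P2 (W r (Z n V r)) x) ∂μ) + δ * (mX + 1)) :=
      intervalIntegral.integral_mono_on hst (hIv.intervalIntegrable _ _)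
        ((hIq.add continuous_const).intervalIntegrable _ _) hpt
    rw [intervalIntegral.integral_add (hIq.intervalIntegrable _ _)
      (continuous_const.intervalIntegrable _ _), intervalIntegral.integral_const,
      smul_eq_mul] at h11
    have h12 := (hD X μ κ b om W n V (Z n V) hμ hW hn (hL.fl n V) s t hst).2.2.2
    have h13 : (t - s) * (δ * (mX + 1)) = δ * ((mX + 1) * (t - s)) := by ring
    linarith
  exact ge_of_tendsto (hlim.add_const ε) hmain

end Pool.Agent.BEL.H92
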