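import Pool.Agent.BEL.StmtsQ

/-!
# The pointwise inequality of the weak-strong argument
-/

set_option autoImplicit false

namespace Pool.Agent.BEL.H92

open MeasureTheory Filter Topology Set
open scoped InnerProductSpace ENNReal

theorem wpi (glp : GlpStmt) : WpiStmt := by
  intro a al l K p z v ha hal hl hK hp
  obtain ⟨-, -, hmono, -, hnn, hle, -, heq, -⟩ := glp a al ha hal
  have hz0 := abs_nonneg z
  have hv0 := abs_nonneg v
  -- monotonicity of the damping function
  have h1 : 0 ≤ (gf a al z - gf a al v) * (z - v) := by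
    set L := max |z| |v| with hL
    have hL0 : 0 ≤ L := le_trans hz0 (le_max_left _ _)
    rw [← heq L z (le_max_left _ _), ← heq L v (le_max_right _ _)]
    rcases le_total z v with h | h
    · have := hmono L hL0 h
      nlinarith
    · have := hmono L hL0 h
      nlinarith
  have hsplit : (gf a al z - gl a al l v) * (z - v) =
      (gf a al z - gf a al v) * (z - v) + (gf a al v - gl a al l v) * (z - v) := by ring
  have hK1 : 0 < K ^ (-(al + 1)) := Real.rpow_pos_of_pos hK _
  have hzp : 0 ≤ |z| ^ (al + 2) := Real.rpow_nonneg hz0 _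
  have hlp : 0 < l ^ (al + 2 - p) := Real.rpow_pos_of_pos hl _
  have hvp : 0 ≤ |v| ^ p := Real.rpow_nonneg hv0 _
  rcases le_or_gt |v| l with hvl | hvl
  · rw [hsplit, heq l v hvl, sub_self, zero_mul, add_zero]
    refine le_trans ?_ h1
    have : 0 ≤ a * (K ^ (-(al + 1)) * |z| ^ (al + 2) + (K + 1) * (l ^ (al + 2 - p) * |v| ^ p)) := by
      positivity
    linarith
  · have hvpos : 0 < |v| := hl.trans hvl
    have hv1 : 0 < |v| ^ (al + 1) := Real.rpow_pos_of_pos hvpos _
    -- the difference
    have h2 : 0 ≤ gl a al l v * v := hnn l v hl.le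
    have h3 : gl a al l v * v ≤ gf a al v * v := by
      have h4 := hle l (max l |v|) v hl.le (le_max_left _ _)
      rwa [heq (max l |v|) v (le_max_right _ _)] at h4
    have h5 : gf a al v * v = a * |v| ^ (al + 1) * |v| := by
      unfold gf
      rw [Real.rpow_add hvpos, Real.rpow_one]
      have h6 : v * v = |v| * |v| := (abs_mul_abs_self v).symm
      calc a * |v| ^ al * v * v = a * |v| ^ al * (v * v) := by ring
        _ = a * |v| ^ al * (|v| * |v|) := by rw [h6]
        _ = a * (|v| ^ al * |v|) * |v| := by ring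
    have h7 : |gf a al v - gl a al l v| ≤ a * |v| ^ (al + 1) := by
      have h8 : |gf a al v - gl a al l v| * |v| ≤ a * |v| ^ (al + 1) * |v| := by
        rw [← abs_mul, abs_le, ← h5]
        constructor <;> nlinarith
      exact le_of_mul_le_mul_right h8 hvpos
    have h9 : -(a * |v| ^ (al + 1) * (|z| + |v|)) ≤ (gf a al v - gl a al l v) * (z - v) := by
      have h10 : |(gf a al v - gl a al l v) * (z - v)| ≤ a * |v| ^ (al + 1) * (|z| + |v|) := by
        rw [abs_mul]
        exact mul_le_mul h7 (abs_sub z v) (abs_nonneg _) (by positivity)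
      exact (abs_le.mp h10).1
    have h11 : |v| ^ (al + 1) * |z| ≤ K ^ (-(al + 1)) * |z| ^ (al + 2) + K * |v| ^ (al + 2) := by
      have hv2 : |v| ^ (al + 2) = |v| ^ (al + 1) * |v| := by
        rw [← Real.rpow_add_one hvpos.ne']
        congr 1
        ring
      rcases le_or_gt (K * |v|) |z| with h | h
      · have hzpos : 0 < |z| := lt_of_lt_of_le (by positivity) h
        have h12 : |v| ≤ K⁻¹ * |z| := by
          rw [le_inv_mul_iff₀ hK]
          exact h
        have h13 : |v| ^ (al + 1) ≤ (K⁻¹ * |z|) ^ (al + 1) :=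
          Real.rpow_le_rpow hv0 h12 (by linarith)
        rw [Real.mul_rpow (by positivity) hz0, Real.inv_rpow hK.le, ← Real.rpow_neg hK.le] at h13
        have h14 : |z| ^ (al + 2) = |z| ^ (al + 1) * |z| := by
          rw [← Real.rpow_add_one hzpos.ne']
          congr 1
          ring
        have h15 : |v| ^ (al + 1) * |z| ≤ K ^ (-(al + 1)) * |z| ^ (al + 1) * |z| :=
          mul_le_mul_of_nonneg_right h13 hz0
        have h16 : 0 ≤ K * |v| ^ (al + 2) := by positivity
        rw [h14]
        nlinarith
      · have h15 : |v| ^ (al + 1) * |z| ≤ |v| ^ (al + 1) * (K * |v|) :=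
          mul_le_mul_of_nonneg_left h.le hv1.le
        have h16 : 0 ≤ K ^ (-(al + 1)) * |z| ^ (al + 2) := by positivity
        rw [hv2]
        nlinarith
    have h17 : |v| ^ (al + 2) ≤ l ^ (al + 2 - p) * |v| ^ p := by
      have h18 : |v| ^ (al + 2) = |v| ^ (al + 2 - p) * |v| ^ p := by
        rw [← Real.rpow_add hvpos]
        congr 1
        ring
      rw [h18]
      exact mul_le_mul_of_nonneg_right
        (Real.rpow_le_rpow_of_nonpos hl hvl.le (by linarith)) hvp
    have h19 : |v| ^ (al + 1) * |v| = |v| ^ (al + 2) := by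
      rw [← Real.rpow_add_one hvpos.ne']
      congr 1
      ring
    have h20 : |v| ^ (al + 1) * (|z| + |v|) ≤ K ^ (-(al + 1)) * |z| ^ (al + 2) +
        (K + 1) * (l ^ (al + 2 - p) * |v| ^ p) := by
      have h21 : K * |v| ^ (al + 2) ≤ K * (l ^ (al + 2 - p) * |v| ^ p) :=
        mul_le_mul_of_nonneg_left h17 hK.le
      rw [mul_add, h19]
      nlinarith
    have h22 : a * (|v| ^ (al + 1) * (|z| + |v|)) ≤ a * (K ^ (-(al + 1)) * |z| ^ (al + 2) +
        (K + 1) * (l ^ (al + 2 - p) * |v| ^ p)) := mul_le_mul_of_nonneg_left h20 ha.le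
    rw [hsplit]
    linarith

end Pool.Agent.BEL.H92
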